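import Pool.Agent.H37.CSZ.Stmts

/-!
# Row ZU2 of the board `csz`: the subgroups of the Sylow subgroup
-/

set_option autoImplicit false

namespace Pool.CND

open Matrix

open scoped commutatorElement in
theorem zu2_thm (hISO : S_ISO) (hZZB : S_ZZB) : S_ZU2 := by
  classical
  intro n q f F _ _ φ hn hf hq hF hφ W hW z hzW hz1 hz2
  obtain ⟨hB, -, -, -⟩ := hZZB n q f F φ hn hf hq hF hφ
  have h2 : (2 : F) = 0 := CharTwo.two_eq_zero
  have : Finite F := by
    apply Nat.finite_of_card_ne_zero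
    rw [hF, hq]
    positivity
  have : Finite (Matrix (Fin 4) (Fin 4) F) := inferInstanceAs (Finite (Fin 4 → Fin 4 → F))
  have : Finite (Matrix.SpecialLinearGroup (Fin 4) F) := Subtype.finite
  -- entries
  have hE : ∀ g ∈ W, g.1.1 2 1 = 0 ∧ g.1.1 3 1 = 0 ∧ g.1.1 3 2 = 0 ∧ g.1.1 1 1 = 1 ∧
      g.1.1 2 2 = 1 ∧ g.1.1 1 2 = φ (g.1.1 0 1) := by
    intro g hg
    obtain ⟨a1, a2, a3, a4⟩ := hW g hg
    obtain ⟨b1, b2, b3, -, -, b4⟩ := hB g a1 a2 a3
    obtain ⟨c1, c2, -, c3, -, -⟩ := b4 a4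
    exact ⟨b1, b2, b3, c1, c2, c3⟩
  have hmul : ∀ (g h : Sz φ) (i j : Fin 4), (g * h).1.1 i j = ∑ l, g.1.1 i l * h.1.1 l j := by
    intro g h i j
    exact Matrix.mul_apply
  have h01 : ∀ g ∈ W, ∀ h ∈ W, (g * h).1.1 0 1 = g.1.1 0 1 + h.1.1 0 1 := by
    intro g hg h hh
    obtain ⟨a1, a2, a3, a4, a5, a6⟩ := hE g hg
    obtain ⟨b1, b2, b3, b4, b5, b6⟩ := hE h hh
    obtain ⟨c1, c2, c3, c4⟩ := hW g hg
    rw [hmul, Fin.sum_univ_four, c4, b1, b2, b4]
    ring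
  have h02 : ∀ g ∈ W, ∀ h ∈ W, (g * h).1.1 0 2 =
      g.1.1 0 2 + h.1.1 0 2 + g.1.1 0 1 * φ (h.1.1 0 1) := by
    intro g hg h hh
    obtain ⟨b1, b2, b3, b4, b5, b6⟩ := hE h hh
    obtain ⟨c1, c2, c3, c4⟩ := hW g hg
    rw [hmul, Fin.sum_univ_four, c4, b3, b5, b6]
    ring
  have hone : ∀ i j : Fin 4, (1 : Sz φ).1.1 i j = (1 : Matrix (Fin 4) (Fin 4) F) i j :=
    fun i j => rfl
  have h1_01 : (1 : Sz φ).1.1 0 1 = 0 := by rw [hone]; simp
  have h1_02 : (1 : Sz φ).1.1 0 2 = 0 := by rw [hone]; simp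
  -- the involution
  have hz01 : z.1.1 0 1 = 0 := by
    have h3 := h02 z hzW z hzW
    rw [← pow_two, hz2, h1_02] at h3
    have h4 : z.1.1 0 1 * φ (z.1.1 0 1) = 0 := by
      linear_combination -h3 - z.1.1 0 2 * h2
    rcases mul_eq_zero.1 h4 with h5 | h5
    · exact h5
    · exact (map_eq_zero φ).1 h5
  have hz02 : z.1.1 0 2 ≠ 0 := by
    intro h3
    obtain ⟨a1, a2, a3, a4⟩ := hW z hzW
    obtain ⟨-, -, -, -, -, b4⟩ := hB z a1 a2 a3
    obtain ⟨-, -, -, -, -, c⟩ := b4 a4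
    exact hz1 (c hz01 h3)
  refine ⟨hz01, hz02, ?_⟩
  -- the functional
  let _ : Algebra (ZMod 2) F := ZMod.algebra F 2
  obtain ⟨lam, hlam⟩ : ∃ lam : Module.Dual (ZMod 2) F, lam (z.1.1 0 2) ≠ 0 := by
    by_contra hcon
    push Not at hcon
    exact hz02 ((Module.forall_dual_apply_eq_zero_iff (ZMod 2) _).1 hcon)
  let τ : W →* Multiplicative F :=
    { toFun := fun w => Multiplicative.ofAdd ((w : Sz φ).1.1 0 1)
      map_one' := by
        change Multiplicative.ofAdd ((1 : Sz φ).1.1 0 1) = 1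
        rw [h1_01]; rfl
      map_mul' := by
        intro a b
        change Multiplicative.ofAdd (((a : Sz φ) * (b : Sz φ)).1.1 0 1) = _
        rw [h01 _ a.2 _ b.2]; rfl }
  have hτ : ∀ w : W, w ∈ τ.ker ↔ (w : Sz φ).1.1 0 1 = 0 := by
    intro w
    rw [MonoidHom.mem_ker]
    exact Iff.rfl
  let ω : W → W → ZMod 2 := fun a b =>
    lam ((a : Sz φ).1.1 0 1 * φ ((b : Sz φ).1.1 0 1) + (b : Sz φ).1.1 0 1 * φ ((a : Sz φ).1.1 0 1))
  have hω : ∀ a b : W, ω a b = lam ((a : Sz φ).1.1 0 1 * φ ((b : Sz φ).1.1 0 1) +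
    (b : Sz φ).1.1 0 1 * φ ((a : Sz φ).1.1 0 1)) := fun a b => rfl
  have hωs : ∀ a b : W, ω a b = ω b a := by
    intro a b
    rw [hω, hω, add_comm]
  have hω1 : ∀ a b c : W, ω (a * b) c = ω a c + ω b c := by
    intro a b c
    rw [hω, hω, hω, ← map_add lam, Subgroup.coe_mul, h01 _ a.2 _ b.2, map_add φ]
    congr 1
    ring
  obtain ⟨U, hRU, hU, hidx⟩ := hISO W ω τ.ker hω1
    (fun a b c => by rw [hωs, hω1, hωs b, hωs c])
    (fun a => by
      rw [hω, ← two_mul, h2, zero_mul, map_zero])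
    (fun r hr g => by
      have h3 : ω r g = 0 := by
        rw [hω, (hτ r).1 hr, map_zero, zero_mul, mul_zero, add_zero, map_zero]
      exact ⟨h3, by rw [hωs]; exact h3⟩)
  have hRi : τ.ker.index ∣ 2 ^ (2 * n + 1) := by
    rw [Subgroup.index_ker, ← hq, ← hF]
    exact Subgroup.card_subgroup_dvd_card τ.range
  obtain ⟨d, -, hd⟩ := (Nat.dvd_prime_pow Nat.prime_two).1
    ((Subgroup.index_dvd_of_le hRU).trans hRi)
  refine ⟨U.map W.subtype, d, ?_, ?_, ?_, ?_, ?_⟩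
  · rintro _ ⟨w, _, rfl⟩
    exact w.2
  · exact ⟨⟨z, hzW⟩, hRU ((hτ _).2 hz01), rfl⟩
  · -- commutators
    let N : Subgroup (Sz φ) :=
      { carrier := {g | g ∈ W ∧ g.1.1 0 1 = 0 ∧ lam (g.1.1 0 2) = 0}
        one_mem' := ⟨W.one_mem, h1_01, by rw [h1_02, map_zero]⟩
        mul_mem' := by
          rintro a b ⟨a1, a2, a3⟩ ⟨b1, b2, b3⟩
          refine ⟨W.mul_mem a1 b1, ?_, ?_⟩
          · rw [h01 a a1 b b1, a2, b2, add_zero]
          · rw [h02 a a1 b b1, a2, zero_mul, add_zero, map_add, a3, b3, add_zero]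
        inv_mem' := by
          rintro a ⟨a1, a2, a3⟩
          have c1 : a⁻¹.1.1 0 1 = 0 := by
            have := h01 a a1 a⁻¹ (W.inv_mem a1)
            rw [mul_inv_cancel, h1_01, a2, zero_add] at this
            exact this.symm
          refine ⟨W.inv_mem a1, c1, ?_⟩
          have := h02 a a1 a⁻¹ (W.inv_mem a1)
          rw [mul_inv_cancel, h1_02, a2, zero_mul, add_zero] at this
          have e : a⁻¹.1.1 0 2 = -a.1.1 0 2 := by linear_combination -this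
          rw [e, map_neg, a3, neg_zero] }
    have hle : ⁅U.map W.subtype, U.map W.subtype⁆ ≤ N := by
      rw [Subgroup.commutator_le]
      rintro _ ⟨a, ha, rfl⟩ _ ⟨b, hb, rfl⟩
      change ⁅(a : Sz φ), (b : Sz φ)⁆ ∈ N
      have ha' := a.2
      have hb' := b.2
      have hcW : ⁅(a : Sz φ), (b : Sz φ)⁆ ∈ W := by
        rw [commutatorElement_def]
        exact W.mul_mem (W.mul_mem (W.mul_mem ha' hb') (W.inv_mem ha')) (W.inv_mem hb')
      have hba : (b : Sz φ) * a ∈ W := W.mul_mem hb' ha'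
      have e : ⁅(a : Sz φ), (b : Sz φ)⁆ * ((b : Sz φ) * a) = (a : Sz φ) * b := by
        rw [commutatorElement_def]; group
      have e1 := h01 _ hcW _ hba
      have e2 := h02 _ hcW _ hba
      rw [e] at e1 e2
      have c1 : ⁅(a : Sz φ), (b : Sz φ)⁆.1.1 0 1 = 0 := by
        rw [h01 _ ha' _ hb', h01 _ hb' _ ha'] at e1
        linear_combination -e1
      refine ⟨hcW, c1, ?_⟩
      rw [c1, zero_mul, add_zero, h02 _ ha' _ hb', h02 _ hb' _ ha'] at e2
      have c2 : ⁅(a : Sz φ), (b : Sz φ)⁆.1.1 0 2 = (a : Sz φ).1.1 0 1 * φ ((b : Sz φ).1.1 0 1) +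
          (b : Sz φ).1.1 0 1 * φ ((a : Sz φ).1.1 0 1) := by
        linear_combination -e2 - ((b : Sz φ).1.1 0 1 * φ ((a : Sz φ).1.1 0 1)) * h2
      rw [c2]
      exact hU a ha b hb
    intro hz
    exact hlam (hle hz).2.2
  · have h3 : (2 ^ d) ^ 2 ≤ 2 ^ (2 * n + 1) := by
      rw [← hd]
      exact hidx.trans (Nat.le_of_dvd (by positivity) hRi)
    rw [← pow_mul] at h3
    have := (Nat.pow_le_pow_iff_right (by norm_num : 1 < 2)).1 h3
    omega
  · rw [← hd, mul_comm, ← Subgroup.card_mul_index U]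
    congr 1
    exact (Subgroup.card_map_of_injective W.subtype_injective).symm

end Pool.CND
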